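import Pool.Agent.Helper27.KS.GoalsF
import Pool.Agent.Helper75.KS.Two

/-!
# Adaptor for the stability of large deviations
-/

namespace Pool.Agent.Helper27.KS

open Finset
open Pool.Agent.Helper75.KS (dev adr)
open Pool.Agent.Helper89.GP (LX po Pr Pr_eq_zero)

theorem stb_ad (h : StbStmt) : Pool.Agent.Helper75.KS.StbStmt := by
  obtain ⟨c', S2, hc, hS, H⟩ := h
  refine ⟨c', S2, hc, ?_⟩
  intro n R u v hne hx hp x
  obtain ⟨x1, hx1⟩ := hx
  obtain ⟨x0, _, hx0⟩ := Finset.exists_max_image (univ : Finset (Fin n)) (dev R) ⟨x1, mem_univ x1⟩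
  have huv : u ≠ v := by
    rintro rfl
    rw [Pr_eq_zero (fun σ _ hσ => lt_irrefl _ hσ)] at hp
    norm_num at hp
  obtain ⟨z, hz⟩ := H n R u v x0 hne huv hp (fun z => hx0 z (mem_univ z))
    (hx1.trans (hx0 x1 (mem_univ x1)))
  refine ⟨z, le_trans ?_ hz⟩
  exact mul_le_mul_of_nonneg_left (hx0 x (mem_univ x)) hc.le

theorem ksg_ad (h : Pool.Agent.Helper75.KS.KsgStmt) : KsgStmt := by
  intro ε hε
  obtain ⟨S0, hS0⟩ := h ε hε
  refine ⟨max 1 S0, le_max_left _ _, ?_⟩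
  rintro n R hne ⟨z, hz⟩
  exact hS0 n R hne ⟨z, (le_max_right _ _).trans hz⟩

end Pool.Agent.Helper27.KS
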