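import Pool.Agent.Helper75.KS.GoalsA
import Pool.Agent.Helper75.KS.GoalsB
import Pool.Agent.Helper89.GP.GoalsA

/-!
# The Kahn-Saks conjecture: goals F (large deviation instead of large width)

Form (S) of the final theorem: it is enough that SOME element has a large mean deviation. Balanced pairs
then come from PAD, SYS and `S_MAIN` (goal KSG); for the golden partition inequality one needs that
the deviation stays large after one comparison (goal STB). Posets are relations `R` on `Fin n`, they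
need not be transitive here. Elementary facts (`mem_LX`, `Pr_eq_Ex`, `Ex_add`, `Ex_mono`, ...) are in
Pool/Agent/Helper89/GP/Basic.lean. `gp R u v = Ex (po v - po u) = hh v - hh u`, `df σ u v = po v - po u`.
Every goal may be used as a hypothesis where the docstring says so.
-/

namespace Pool.Agent.Helper27.KS

open MeasureTheory Filter Topology Finset
open Pool.Agent.Helper44.KS Pool.Agent.Helper75.KS
open Pool.Agent.Helper89.GP (LX po Ex Pr hh bq Gd gp df SmoStmt)

noncomputable section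

/-- The law of `V v - V u` in the exponential model. -/
def nu {n : ℕ} (R : Fin n → Fin n → Prop) (u v : Fin n) : Measure ℝ :=
  volume.withDensity fun t => ENNReal.ofReal (Gd R u v t)

/-- The relation `R` together with `u < v`. -/
def ad {n : ℕ} (R : Fin n → Fin n → Prop) (u v : Fin n) : Fin n → Fin n → Prop :=
  fun a b => R a b ∨ (a = u ∧ b = v)

/-! ### The laws -/

/-- GIN. The law of a difference. Proof: `Gd R u v t` is a finite sum of functions
`c * exp (-t) * t ^ k / k!` on `[0, ∞)` and of their mirror images on `(-∞, 0)`, with coefficients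
`bq R u v k ≥ 0` and `bq R v u k ≥ 0`, `k < n`. `∫ t > 0, exp (-t) t ^ k = k!`
(`Real.Gamma_nat_eq_factorial`, `Real.Gamma_eq_integral`; `integral_comp_neg_Iio` or
`integral_comp_neg_Ioi` for the mirror image), and the sum of all coefficients is `1`, because
the difference of the positions of `u ≠ v` is between `1` and `n - 1` in absolute value. So
`∫ Gd = 1`, and the third and fourth claims are the parts over the two half lines: `bq R u v k` sums
to `Pr (po u < po v)` (`integral_Iic_eq_integral_Iio`, `nu` of a half line is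
`ENNReal.ofReal` of the integral of `Gd` over it). -/
def GinStmt : Prop := ∀ (n : ℕ) (R : Fin n → Fin n → Prop) (u v : Fin n), (LX R).Nonempty → u ≠ v →
  Measurable (Gd R u v) ∧ (∀ t, 0 ≤ Gd R u v t) ∧ IsProbabilityMeasure (nu R u v) ∧
  (nu R u v).real (Set.Iio 0) = (Pr R fun σ => po σ v < po σ u) ∧
  (nu R u v).real (Set.Ioi 0) = (Pr R fun σ => po σ u < po σ v)

/-- NOI. Comparison with the positions. Proof (may assume GIN): for `k ≥ 1` let
`γ_k t = exp (-t) t ^ (k-1) / (k-1)!` on `t > 0`. `∫ γ_k = 1`, `∫ t γ_k = k`, `∫ (t - k)² γ_k = k`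
(Gamma integrals), so `∫ |t - k| γ_k ≤ √k` (Cauchy-Schwarz, or `|t - k| ≤ ((t-k)²/√k + √k)/2`). The
law is `nu R u v = ∑ k ≥ 1, bq R u v (k-1) γ_k + ∑ k ≥ 1, bq R v u (k-1) γ_k(-·)`, and
`Ex R |df σ u v - b| = ∑ k ≥ 1, bq R u v (k-1) |k - b| + ∑ k ≥ 1, bq R v u (k-1) |-k - b|`. So the
difference of the two quantities is at most `∑ k (bq R u v (k-1) + bq R v u (k-1)) √k`, which is
`Ex R √|df|`, at most `√ (Ex R |df|)` by Cauchy-Schwarz (or `√y ≤ (y/s + s)/2` with `s = √(Ex|df|)`). The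
mean: the same computation without absolute values. -/
def NoiStmt : Prop := ∀ (n : ℕ) (R : Fin n → Fin n → Prop) (u v : Fin n), (LX R).Nonempty → u ≠ v →
  Integrable (fun t : ℝ => t) (nu R u v) ∧ mea (nu R u v) = gp R u v ∧
  ∀ b : ℝ, |(∫ t, |t - b| ∂(nu R u v)) - Ex R (fun σ => |df σ u v - b|)| ≤
    √(Ex R fun σ => |df σ u v|)

/-- LCN. Log-concave tails. Proof (may assume GIN, SMO): `nu (Ioi p) = ∫ r > p, Gd r` is the limit of
`∫ r in p..p+ε, Gd R u v r` for `ε → ∞` (`intervalIntegral_tendsto_integral_Ioi`); let `ε → ∞` in SMO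
(the powers `(1-l)`, `l` are continuous). For `Iio` apply SMO to `p - ε`, `q - ε`:
` (1-l) (p - ε) + l (q - ε) = (1-l) p + l q - ε`, and let `ε → ∞`. -/
def LcnStmt : Prop := ∀ (n : ℕ) (R : Fin n → Fin n → Prop) (u v : Fin n), (LX R).Nonempty → u ≠ v →
  LCR (nu R u v)

/-- CMP. Conditioning on one comparison. Proof: `LX (ad R u v)` is `(LX R).filter (po u < po v)`
(`mem_LX`), so `#(LX (ad R u v)) = Pr * #(LX R)`, and a sum over `LX (ad R u v)` of nonnegative terms is
at most the sum over `LX R`. The second claim is the case of events, in all coefficients `bq` of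
`Gd` (an inequality between two finite sums with nonnegative terms, for `0 ≤ t` and `t < 0`). -/
def CmpStmt : Prop := ∀ (n : ℕ) (R : Fin n → Fin n → Prop) (u v : Fin n), (LX (ad R u v)).Nonempty →
  (∀ X : Equiv.Perm (Fin n) → ℝ, (∀ σ, 0 ≤ X σ) →
    (Pr R fun σ => po σ u < po σ v) * Ex (ad R u v) X ≤ Ex R X) ∧
  (∀ (p q : Fin n) (t : ℝ), (Pr R fun σ => po σ u < po σ v) * Gd (ad R u v) p q t ≤ Gd R p q t) ∧
  LX (ad R u v) = by classical exact (LX R).filter fun σ => po σ u < po σ v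

/-! ### A moving element -/

/-- TLR. The tail. Proof (may assume GIN, NOI, LCN, LTA): let `a = gp R x q = hh q - hh x`, `α = |a|/S`,
`ν = nu R x q`, `M = mdv ν`. `Ex |df - a| ≤ dev R x + dev R q ≤ 2 S`, `Ex |df| ≤ |a| + 2 S`, so by NOI
`M ≤ 2 S + √(|a| + 2 S) ≤ S (2 + √(α + 2))` (as `1 ≤ S`). If `a > 0` then
`π = Pr (po q < po x) = ν (Iio 0)` (GIN) and `Iio 0 ⊆ {|t - a| > s M}` for
`s = α / (2 (2 + √(α + 2)))` (`s M ≤ a / 2 < a`), so `π ≤ 2 * 2 ^ (-(s/6))` by LTA (`mea ν = a`). If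
`a < 0` the same for `1 - π = Pr (po x < po q) = ν (Ioi 0)`. If `a = 0`: `π (1 - π) ≤ 1`. So
`π (1-π) ≤ 2 * 2 ^ (- α / (12 (2 + √(α+2))))`, and this times `(1 + α) ^ 3` is bounded for `α ≥ 0`
(for `α ≥ 2`: `2 + √(α+2) ≤ 4 √α`, so the exponent is at least `√α / 48`; `2 ^ (-y) ≤ C / y ^ 6`). -/
def TlrStmt : Prop := ∃ K : ℝ, 0 < K ∧ ∀ (n : ℕ) (R : Fin n → Fin n → Prop) (x q : Fin n) (S : ℝ),
  (LX R).Nonempty → q ≠ x → 1 ≤ S → dev R x ≤ S → dev R q ≤ S →
  (Pr R fun σ => po σ q < po σ x) * (1 - Pr R fun σ => po σ q < po σ x) ≤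
    K / (1 + |gp R x q| / S) ^ 3

/-- FSM. Sums over the elements. Proof (may assume CNT): put `q` into the cell
`j = ⌊(hh q - hh x)/S⌋`; a cell has at most `15 S` elements (CNT with `u = hh x + j S`). If `j ≥ 0`
then `|gp|/S ≥ j`, if `j < 0` then `|gp|/S ≥ |j| - 1`. The elements with `C S ≤ |gp|` have
`|j| ≥ C - 1`. So the sum is at most `2 * 15 S * ∑ j ≥ max (⌈C⌉ - 2) 0, 1/(1+j)^3`, and
`∑ j ≥ m, 1/(1+j)^3 ≤ ∑ j ≥ m, 1/(1+j)^2 ≤ 2/(1+m)`. (Any `K`, for example `500`.) The second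
claim: `[-C, C]` is covered by at most `2 C + 2` cells. -/
def FsmStmt : Prop := ∃ K : ℝ, 0 < K ∧ ∀ (n : ℕ) (R : Fin n → Fin n → Prop) (x : Fin n) (S C : ℝ),
  (LX R).Nonempty → 1 ≤ S → (∀ z, dev R z ≤ S) → 0 ≤ C →
  ∑ q ∈ univ.filter (fun q => C * S ≤ |gp R x q|), 1 / (1 + |gp R x q| / S) ^ 3 ≤ K * S / (1 + C) ∧
  ((univ.filter (fun q => |gp R x q| ≤ C * S)).card : ℝ) ≤ 15 * (2 * C + 2) * S

/-- NRE. Elements near `x` that do not move are rare: this uses only that the positions are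
different integers. Proof: let `Q` be the set. For `q ∈ Q`: `|df σ x q| > S/4` implies
`|df - gp| > S/12`, which has probability at most `12 θ` by Markov. So
`(1 - 12 θ) #Q ≤ Ex #{q ∈ Q | |df σ x q| ≤ S/4}`, and for every `σ` the set
`{q | |po σ q - po σ x| ≤ S/4}` has at most `S/2 + 1` elements. With `12 θ ≤ 1/10` and `S ≥ 100`:
`#Q ≤ (S/2 + 1) / 0.9 ≤ 0.6 S`. -/
def NreStmt : Prop := ∀ (n : ℕ) (R : Fin n → Fin n → Prop) (x : Fin n) (S θ : ℝ),
  (LX R).Nonempty → 100 ≤ S → 0 < θ → θ ≤ 1 / 120 →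
  ((univ.filter (fun q => |gp R x q| ≤ S / 6 ∧ (Ex R fun σ => |df σ x q - gp R x q|) < θ * S)).card
    : ℝ) ≤ 6 / 10 * S

/-- MVZ. An element which moves relatively to `x`. Proof (may assume ENE, TLR, FSM, NRE): let `K`, `K'` be
the constants of TLR, FSM; `C1 = 16 K K' + 1`; `θ > 0` with `θ ≤ 1/120` and
`2 * 15 (2 C1 + 2) * 6 θ ≤ 1/8`; `S1 = 100`. Let `S = dev R x` and suppose that there is no `z`. Then for
all `q` with `|gp R x q| ≤ C1 S` we have `Ex |df - gp| < θ S` (also for `q = x`, where it is `0`). Let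
`π_q = Pr (po q < po x)`. ENE: `S ≤ 2 ∑ q, π_q (1 - π_q)`. Split the sum: `|gp| > C1 S`: by TLR (with
`S = dev R x`, all deviations are at most `S`) and FSM at most `K K' S / (1 + C1) ≤ S/16`.
`S/6 < |gp| ≤ C1 S`: `π_q (1 - π_q) ≤ Pr (|df - gp| ≥ |gp|) ≤ θ S / (S/6) = 6 θ` (Markov: if `gp > 0`
then `po q < po x` implies `df < 0` and `|df - gp| ≥ |gp|`; if `gp < 0` use `1 - π_q`, with `q ≠ x`), at
most `15 (2 C1 + 2) S` elements (FSM), together at most `S/16`. `|gp| ≤ S/6`: `π_q (1 - π_q) ≤ 1/4`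
and at most `0.6 S` elements (NRE), together at most `0.15 S`. So `S ≤ 2 (S/16 + S/16 + 0.15 S) < S`, a
contradiction. `z ≠ x` as `Ex |df σ x x - gp R x x| = 0 < θ S`. -/
def MvzStmt : Prop := ∃ C1 θ S1 : ℝ, 1 ≤ C1 ∧ 0 < θ ∧ 1 ≤ S1 ∧
  ∀ (n : ℕ) (R : Fin n → Fin n → Prop) (x : Fin n), (LX R).Nonempty → (∀ z, dev R z ≤ dev R x) →
  S1 ≤ dev R x → ∃ z, z ≠ x ∧ |gp R x z| ≤ C1 * dev R x ∧
    θ * dev R x ≤ Ex R fun σ => |df σ x z - gp R x z|

/-- STB. The deviation stays large after one comparison. Proof (may assume MVZ, GIN, NOI, LCN, LSB,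
CMP): let `C1, θ, S1` be from MVZ, `c' = θ/1600`, and `S2 ≥ S1` so large that for `S ≥ S2`
`√((C1 + 2) S) ≤ θ S / 2` and `√(5/2 (C1 + 2) S) ≤ θ S / 800`. Let `S = dev R x ≥ S2`, `z` from MVZ,
`ν = nu R x z`, `R' = ad R u v`, `ν' = nu R' x z`. `Ex R |df σ x z| ≤ |gp| + dev R x + dev R z ≤
(C1 + 2) S`. By NOI (`b = gp R x z = mea ν`) `M = mdv ν ≥ θ S - √((C1 + 2) S) ≥ θ S/2`. By LSB (`LCR ν` by
LCN) `ν (Icc b (b + h)) ≤ 10 h / M ≤ 20 h / (θ S)` for all `b`, `h`; by CMP `ν' ≤ 5/2 ν`, so with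
`h = θ S/100`: `ν' (Icc b (b + h)) ≤ 1/2`. With `b' = gp R' x z` and `b = b' - h/2`:
`∫ |t - b'| ∂ν' ≥ (h/2) ν' (complement of Icc b (b + h)) ≥ h/4 = θ S / 400`. By NOI for `R'`:
`Ex R' |df σ x z - b'| ≥ θ S/400 - √(Ex R' |df σ x z|)`, and `Ex R' |df| ≤ 5/2 Ex R |df|` (CMP), so it is
at least `θ S / 800`. But `Ex R' |df σ x z - gp R' x z| ≤ dev R' x + dev R' z`, so `x` or `z` has
deviation at least `θ S / 1600`. -/
def StbStmt : Prop := ∃ c' S2 : ℝ, 0 < c' ∧ 1 ≤ S2 ∧
  ∀ (n : ℕ) (R : Fin n → Fin n → Prop) (u v x : Fin n), (LX R).Nonempty → u ≠ v →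
  2 / 5 ≤ (Pr R fun σ => po σ u < po σ v) → (∀ z, dev R z ≤ dev R x) → S2 ≤ dev R x →
  ∃ z, c' * dev R x ≤ dev (ad R u v) z

/-! ### Final statements -/

/-- KSG. Balanced pairs if some element has a large deviation. Proof (may assume PAD, SYS, `S_MAIN`): if
`ε ≥ 1/2` take `S0 = 1` (`n ≥ 2`, since for `n ≤ 1` all deviations are `0`; any `u ≠ v`, the
probabilities are in `[0, 1]`). Let `ε < 1/2` and suppose that there is no `S0`. For every natural `N`
there is an `R` with nonempty `LX R`, some deviation at least `N + 2`, and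
`ε < |Pr (po u < po v) - 1/2|` for all `u ≠ v`. Let `x` have the largest deviation
(`Finset.exists_max_image`). PAD with `K = N`, `c = ε` gives a `Std ε N R' x'` with
`dev R' x' ≥ N + 2`. SYS and `S_MAIN` give a contradiction. -/
def KsgStmt : Prop := ∀ ε : ℝ, 0 < ε → ∃ S0 : ℝ, 1 ≤ S0 ∧ ∀ (n : ℕ) (R : Fin n → Fin n → Prop),
  (LX R).Nonempty → (∃ z, S0 ≤ dev R z) →
  ∃ u v, u ≠ v ∧ |(Pr R fun σ => po σ u < po σ v) - 1 / 2| ≤ ε

/-- The golden partition inequality for a relation on `Fin n`. -/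
def Gol {n : ℕ} (R : Fin n → Fin n → Prop) : Prop :=
  ∃ a b : Fin n, a ≠ b ∧ ¬ R a b ∧ ¬ R b a ∧ ∀ u v, ((u = a ∧ v = b) ∨ (u = b ∧ v = a)) →
    ∃ c d : Fin n, c ≠ d ∧ ∀ w z, ((w = c ∧ z = d) ∨ (w = d ∧ z = c)) →
      ((LX R).filter fun σ => σ u < σ v).card +
        ((LX R).filter fun σ => σ u < σ v ∧ σ w < σ z).card ≤ (LX R).card

/-- GPS. The golden partition inequality if some element has a large deviation. Proof (may assume KSG,
STB, CMP): let `S0` be the number of KSG for `ε = 1/100`, `c', S2` from STB, and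
`S3 = max S0 (max S2 (S0 / c'))`. Let `x` have the largest deviation of `R`, `dev R x ≥ S3`. KSG gives
`a ≠ b` with `Pr (a < b)` and `Pr (b < a)` in `[49/100, 51/100]` (their sum is `1`); so `R a b` and
`R b a` are false. For an outcome `u < v` let `R' = ad R u v`; `LX R' = (LX R).filter (po u < po v)` is
not empty. By STB some element has `dev R' z ≥ c' dev R x ≥ S0`, so KSG for `R'` gives `c ≠ d` with
probabilities in `[49/100, 51/100]`. So `#((LX R).filter (u < v ∧ w < z)) ≤ 51/100 #(LX R')`,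
`#(LX R') ≤ 51/100 #(LX R)`, and `51/100 * 151/100 ≤ 1`. -/
def GpsStmt : Prop := ∃ S : ℝ, ∀ (n : ℕ) (R : Fin n → Fin n → Prop),
  (LX R).Nonempty → (∃ z, S ≤ dev R z) → Gol R

open Classical in
/-- The linear extensions of a finite poset. -/
def LE (α : Type) [Fintype α] [PartialOrder α] : Finset (α ≃ Fin (Fintype.card α)) :=
  Finset.univ.filter fun f => StrictMono (f : α → Fin (Fintype.card α))

/-- The mean of the position of `x` in a random linear extension. -/
def mpos {α : Type} [Fintype α] [PartialOrder α] (x : α) : ℝ :=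
  (∑ f ∈ LE α, ((f x : ℕ) : ℝ)) / (LE α).card

/-- The mean deviation of the position of `x` in a random linear extension. -/
def mdev {α : Type} [Fintype α] [PartialOrder α] (x : α) : ℝ :=
  (∑ f ∈ LE α, |((f x : ℕ) : ℝ) - mpos x|) / (LE α).card

/-- TRG. Transfer to types. Proof: as TRF (same `e`, same `R`): the map `f ↦ e.symm.trans f` is a bijection
from `LE α` onto `LX R`, and `po (e.symm.trans f) (e x) = f x`; `Finset.sum_bij` (or
`Finset.sum_nbij`). -/
def TrgStmt : Prop := ∀ (α : Type) [Fintype α] [PartialOrder α],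
  ∃ (e : α ≃ Fin (Fintype.card α)) (R : Fin (Fintype.card α) → Fin (Fintype.card α) → Prop), Spo R ∧
    (∀ a b, R (e a) (e b) ↔ a < b) ∧ (∀ x, mdev x = dev R (e x)) ∧
    {f : α ≃ Fin (Fintype.card α) | StrictMono (f : α → Fin (Fintype.card α))}.ncard =
      (LX R).card ∧
    (∀ u v : α, {f : α ≃ Fin (Fintype.card α) |
      StrictMono (f : α → Fin (Fintype.card α)) ∧ f u < f v}.ncard =
      ((LX R).filter fun σ => σ (e u) < σ (e v)).card) ∧
    (∀ u v w z : α, {f : α ≃ Fin (Fintype.card α) |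
      StrictMono (f : α → Fin (Fintype.card α)) ∧ f u < f v ∧ f w < f z}.ncard =
      ((LX R).filter fun σ => σ (e u) < σ (e v) ∧ σ (e w) < σ (e z)).card)

/-- First part of the hand-in: balanced pairs. -/
def BalDev : Prop := ∀ ε : ℝ, 0 < ε → ∃ S : ℝ, ∀ (α : Type) [Fintype α] [PartialOrder α],
  (∃ x : α, S ≤ mdev x) →
  ∃ x y : α, x ≠ y ∧
    |(({f : α ≃ Fin (Fintype.card α) |
        StrictMono (f : α → Fin (Fintype.card α)) ∧ f x < f y}.ncard : ℕ) : ℝ) /
      (({f : α ≃ Fin (Fintype.card α) |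
        StrictMono (f : α → Fin (Fintype.card α))}.ncard : ℕ) : ℝ) - 1 / 2| ≤ ε

/-- Second part of the hand-in: the golden partition inequality. -/
def GolDev : Prop := ∃ S : ℝ, ∀ (α : Type) [Fintype α] [PartialOrder α],
  (∃ x : α, S ≤ mdev x) →
  ∃ a b : α, ¬ a ≤ b ∧ ¬ b ≤ a ∧
    ∀ u v : α, ((u = a ∧ v = b) ∨ (u = b ∧ v = a)) →
      ∃ c d : α, c ≠ d ∧
        ∀ w z : α, ((w = c ∧ z = d) ∨ (w = d ∧ z = c)) →
          {f : α ≃ Fin (Fintype.card α) |
              StrictMono (f : α → Fin (Fintype.card α)) ∧ f u < f v}.ncard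
            + {f : α ≃ Fin (Fintype.card α) |
              StrictMono (f : α → Fin (Fintype.card α)) ∧ f u < f v ∧ f w < f z}.ncard
            ≤ {f : α ≃ Fin (Fintype.card α) |
              StrictMono (f : α → Fin (Fintype.card α))}.ncard

/-- Third part of the hand-in: large width implies a large deviation. -/
def WidDev : Prop := ∀ (α : Type) [Fintype α] [PartialOrder α] (s : Finset α),
  IsAntichain (· ≤ ·) (s : Set α) → 10 ≤ s.card → ∃ x ∈ s, (s.card : ℝ) / 10 ≤ mdev x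

/-- FNS. Proof (may assume TRG, KSG, GPS, SCB, LXN): translate (`LX R` is not empty by LXN; an antichain
`s` of `α` gives the antichain `s.map e` of `R`). `BalStmt` and `GolStmt` of helper75 follow from the
three parts: for `S` take `W = max 10 ⌈10 S⌉`. -/
def FnsStmt : Prop := BalDev ∧ GolDev ∧ WidDev ∧ BalStmt ∧ GolStmt

end

end Pool.Agent.Helper27.KS
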