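import Pool.Agent.Helper27.KS.GoalsF
import Pool.Agent.Helper89.GP.Basic

/-!
# An element which moves relatively to x
-/

namespace Pool.Agent.Helper27.KS

open Finset
open Pool.Agent.Helper75.KS
open Pool.Agent.Helper89.GP

variable {n : ℕ} {R : Fin n → Fin n → Prop}

theorem ex_markov (p : Equiv.Perm (Fin n) → Prop) (X : Equiv.Perm (Fin n) → ℝ) (a : ℝ)
    (h0 : ∀ σ, 0 ≤ X σ) (h : ∀ σ, p σ → a ≤ X σ) : a * Pr R p ≤ Ex R X := by
  classical
  rw [Pr_eq_Ex, ← Ex_mul]
  refine Ex_mono fun σ _ => ?_
  split_ifs with hp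
  · rw [mul_one]; exact h σ hp
  · rw [mul_zero]; exact h0 σ

theorem pr_compl (hne : (LX R).Nonempty) (p : Equiv.Perm (Fin n) → Prop) :
    1 - Pr R p = Pr R fun σ => ¬ p σ := by
  have h : Pr R (fun _ => True) = Pr R p + Pr R fun σ => ¬ p σ :=
    Pr_add (fun σ _ => by simp [Classical.em]) (fun σ _ h1 h2 => h2 h1)
  rw [Pr_true hne] at h
  linarith

theorem gp_self (x : Fin n) : gp R x x = 0 := by
  unfold gp Ex df
  simp

theorem mvz (hE : EneStmt) (hT : TlrStmt) (hF : FsmStmt) (hN : NreStmt) : MvzStmt := by
  classical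
  obtain ⟨K, hK, hT⟩ := hT
  obtain ⟨K', hK', hF⟩ := hF
  set C1 : ℝ := 16 * K * K' + 1 with hC1
  have hKK : 0 < K * K' := mul_pos hK hK'
  have hC11 : 1 ≤ C1 := by rw [hC1]; nlinarith
  set θ : ℝ := min (1 / 120) (1 / (1440 * (2 * C1 + 2))) with hθ
  have hθ0 : 0 < θ := by
    rw [hθ]
    refine lt_min (by norm_num) ?_
    positivity
  have hθ1 : θ ≤ 1 / 120 := min_le_left _ _
  have hθ2 : θ * (1440 * (2 * C1 + 2)) ≤ 1 := by
    have h1 : θ ≤ 1 / (1440 * (2 * C1 + 2)) := min_le_right _ _
    have h2 : 0 < 1440 * (2 * C1 + 2) := by positivity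
    rw [le_div_iff₀ h2] at h1
    exact h1
  refine ⟨C1, θ, 100, hC11, hθ0, by norm_num, ?_⟩
  intro n R x hne hmx hS
  by_contra hcon
  push Not at hcon
  set S : ℝ := dev R x with hSd
  have hS0 : 0 < S := by linarith
  have hEq : ∀ q, |gp R x q| ≤ C1 * S → (Ex R fun σ => |df σ x q - gp R x q|) < θ * S := by
    intro q hq
    by_cases hqx : q = x
    · subst hqx
      have h1 : (Ex R fun σ => |df σ q q - gp R q q|) = 0 := by
        rw [gp_self]
        unfold Ex df
        simp
      rw [h1]
      exact mul_pos hθ0 hS0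
    · exact hcon q hqx hq
  have hene := hE n R x hne
  rw [← hSd] at hene
  have hcard4 : ∀ y : ℝ, y * (1 - y) ≤ 1 / 4 := fun y => by nlinarith [sq_nonneg (y - 1 / 2)]
  have hpt : ∀ q, (Pr R fun σ => po σ q < po σ x) * (1 - Pr R fun σ => po σ q < po σ x) ≤
      (if C1 * S ≤ |gp R x q| then K * (1 / (1 + |gp R x q| / S) ^ 3) else 0) +
      (if |gp R x q| ≤ C1 * S then 6 * θ else 0) +
      (if |gp R x q| ≤ S / 6 ∧ (Ex R fun σ => |df σ x q - gp R x q|) < θ * S then 1 / 4 else 0) := by
    intro q
    have hb0 : (0 : ℝ) ≤ if |gp R x q| ≤ C1 * S then 6 * θ else 0 := by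
      split_ifs <;> positivity
    have hc0 : (0 : ℝ) ≤ if |gp R x q| ≤ S / 6 ∧ (Ex R fun σ => |df σ x q - gp R x q|) < θ * S
        then 1 / 4 else 0 := by
      split_ifs <;> positivity
    have ha0 : (0 : ℝ) ≤ if C1 * S ≤ |gp R x q| then K * (1 / (1 + |gp R x q| / S) ^ 3) else 0 := by
      split_ifs <;> positivity
    have hp0 : 0 ≤ Pr R fun σ => po σ q < po σ x := Pr_nonneg _
    have hp1 : (Pr R fun σ => po σ q < po σ x) ≤ 1 := Pr_le_one _
    by_cases h1 : C1 * S ≤ |gp R x q|
    · have hqx : q ≠ x := by
        rintro rfl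
        rw [gp_self, abs_zero] at h1
        have : 0 < C1 * S := mul_pos (by linarith) hS0
        linarith
      have h2 := hT n R x q S hne hqx (by linarith) le_rfl (hmx q)
      rw [if_pos h1]
      rw [div_eq_mul_one_div] at h2
      linarith
    · push Not at h1
      have hq := hEq q h1.le
      by_cases h2 : |gp R x q| ≤ S / 6
      · rw [if_pos (⟨h2, hq⟩ : |gp R x q| ≤ S / 6 ∧
          (Ex R fun σ => |df σ x q - gp R x q|) < θ * S)]
        have := hcard4 (Pr R fun σ => po σ q < po σ x)
        linarith
      · push Not at h2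
        rw [if_pos h1.le]
        have key : (Pr R fun σ => po σ q < po σ x) * (1 - Pr R fun σ => po σ q < po σ x) ≤
            6 * θ := by
          rcases lt_or_ge 0 (gp R x q) with hg | hg
          · have h3 : gp R x q * (Pr R fun σ => po σ q < po σ x) ≤
                Ex R fun σ => |df σ x q - gp R x q| := by
              apply ex_markov _ _ _ (fun σ => abs_nonneg _)
              intro σ hσ
              have h4 : df σ x q < 0 := by
                unfold df
                have : (po σ q : ℝ) < po σ x := by exact_mod_cast hσ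
                linarith
              rw [abs_of_neg (by linarith)]
              linarith
            rw [abs_of_pos hg] at h2
            have h5 : S / 6 * (Pr R fun σ => po σ q < po σ x) ≤ θ * S := by
              refine le_trans ?_ (h3.trans hq.le)
              exact mul_le_mul_of_nonneg_right h2.le hp0
            have h6 : (Pr R fun σ => po σ q < po σ x) ≤ 6 * θ := by
              have : S * (Pr R fun σ => po σ q < po σ x) ≤ S * (6 * θ) := by linarith
              exact le_of_mul_le_mul_left this hS0
            nlinarith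
          · have h3 : (-gp R x q) * (Pr R fun σ => ¬ po σ q < po σ x) ≤
                Ex R fun σ => |df σ x q - gp R x q| := by
              apply ex_markov _ _ _ (fun σ => abs_nonneg _)
              intro σ hσ
              have h4 : 0 ≤ df σ x q := by
                unfold df
                have : (po σ x : ℝ) ≤ po σ q := by exact_mod_cast not_lt.1 hσ
                linarith
              rw [abs_of_nonneg (by linarith)]
              linarith
            rw [abs_of_nonpos hg] at h2
            rw [← pr_compl hne] at h3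
            have h5 : S / 6 * (1 - Pr R fun σ => po σ q < po σ x) ≤ θ * S := by
              refine le_trans ?_ (h3.trans hq.le)
              exact mul_le_mul_of_nonneg_right h2.le (by linarith)
            have h6 : (1 - Pr R fun σ => po σ q < po σ x) ≤ 6 * θ := by
              have : S * (1 - Pr R fun σ => po σ q < po σ x) ≤ S * (6 * θ) := by linarith
              exact le_of_mul_le_mul_left this hS0
            nlinarith
        linarith
  have hsum : ∑ q, (Pr R fun σ => po σ q < po σ x) * (1 - Pr R fun σ => po σ q < po σ x) ≤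
      S / 16 + S / 16 + 3 / 20 * S := by
    refine (Finset.sum_le_sum fun q _ => hpt q).trans ?_
    rw [Finset.sum_add_distrib, Finset.sum_add_distrib, ← Finset.sum_filter, ← Finset.sum_filter,
      ← Finset.sum_filter, Finset.sum_const, Finset.sum_const, nsmul_eq_mul, nsmul_eq_mul,
      ← Finset.mul_sum]
    obtain ⟨h1, h2⟩ := hF n R x S C1 hne (by linarith) hmx (by linarith)
    have h3 := hN n R x S θ hne hS hθ0 hθ1
    have h4 : K * ∑ q ∈ univ.filter (fun q => C1 * S ≤ |gp R x q|), 1 / (1 + |gp R x q| / S) ^ 3 ≤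
        S / 16 := by
      have h5 := mul_le_mul_of_nonneg_left h1 hK.le
      refine h5.trans ?_
      rw [← mul_div_assoc, div_le_div_iff₀ (by linarith) (by norm_num)]
      rw [hC1]
      nlinarith
    have h6 : ((univ.filter (fun q => |gp R x q| ≤ C1 * S)).card : ℝ) * (6 * θ) ≤ S / 16 := by
      refine (mul_le_mul_of_nonneg_right h2 (by positivity)).trans ?_
      have : 15 * (2 * C1 + 2) * S * (6 * θ) = S / 16 * (θ * (1440 * (2 * C1 + 2))) := by ring
      rw [this]
      have h7 : S / 16 * (θ * (1440 * (2 * C1 + 2))) ≤ S / 16 * 1 :=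
        mul_le_mul_of_nonneg_left hθ2 (by positivity)
      linarith
    linarith
  linarith

end Pool.Agent.Helper27.KS
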