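import Pool.Agent.Helper42.KS.Goals

set_option autoImplicit false

namespace Pool.Agent.Helper42.KS.PkPQ

open Finset

lemma ee_add (s t : ℝ) : ee (s + t) = ee s * ee t := by
  unfold ee
  rw [← Complex.exp_add]
  congr 1
  push_cast
  ring

lemma ee_zero : ee 0 = 1 := by
  unfold ee
  simp

lemma norm_ee (t : ℝ) : ‖ee t‖ = 1 := by
  unfold ee
  exact Complex.norm_exp_ofReal_mul_I _

lemma ee_int (n : ℤ) : ee (n : ℝ) = 1 := by
  unfold ee
  have h : ((2 * Real.pi * (n : ℝ) : ℝ) : ℂ) * Complex.I = n * (2 * Real.pi * Complex.I) := by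
    push_cast
    ring
  rw [h]
  exact Complex.exp_int_mul_two_pi_mul_I n

lemma ee_mul_nat (t : ℝ) (y : ℕ) : ee (t * y) = ee t ^ y := by
  unfold ee
  rw [← Complex.exp_nat_mul]
  congr 1
  push_cast
  ring

lemma norm_ee_sub_one (t : ℝ) : ‖ee t - 1‖ = 2 * |Real.sin (Real.pi * t)| := by
  have h : ee t = Complex.exp (Complex.I * ((2 * Real.pi * t : ℝ) : ℂ)) := by
    unfold ee
    congr 1
    ring
  rw [h, Complex.norm_exp_I_mul_ofReal_sub_one]
  rw [norm_mul, Real.norm_eq_abs, Real.norm_eq_abs]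
  have h2 : 2 * Real.pi * t / 2 = Real.pi * t := by ring
  rw [h2]
  norm_num

/-- lower bound for the sine -/
lemma sin_low {t : ℝ} (h0 : 0 < t) (h1 : t < 1) :
    2 * min t (1 - t) ≤ |Real.sin (Real.pi * t)| := by
  have hpi := Real.pi_pos
  rcases le_total t (1 / 2) with ht | ht
  · have hmin : min t (1 - t) ≤ t := min_le_left _ _
    have hs : 2 / Real.pi * (Real.pi * t) ≤ Real.sin (Real.pi * t) := by
      apply Real.mul_le_sin
      · positivity
      · nlinarith
    have he : 2 / Real.pi * (Real.pi * t) = 2 * t := by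
      field_simp
    rw [he] at hs
    calc 2 * min t (1 - t) ≤ 2 * t := by linarith
      _ ≤ Real.sin (Real.pi * t) := hs
      _ ≤ |Real.sin (Real.pi * t)| := le_abs_self _
  · have hmin : min t (1 - t) ≤ 1 - t := min_le_right _ _
    have hs : 2 / Real.pi * (Real.pi * (1 - t)) ≤ Real.sin (Real.pi * (1 - t)) := by
      apply Real.mul_le_sin
      · have : 0 < 1 - t := by linarith
        positivity
      · nlinarith
    have he : 2 / Real.pi * (Real.pi * (1 - t)) = 2 * (1 - t) := by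
      field_simp
    have hsin : Real.sin (Real.pi * (1 - t)) = Real.sin (Real.pi * t) := by
      have : Real.pi * (1 - t) = Real.pi - Real.pi * t := by ring
      rw [this, Real.sin_pi_sub]
    rw [he, hsin] at hs
    calc 2 * min t (1 - t) ≤ 2 * (1 - t) := by linarith
      _ ≤ Real.sin (Real.pi * t) := hs
      _ ≤ |Real.sin (Real.pi * t)| := le_abs_self _

/-- the Dirichlet kernel -/
lemma kernel_triv (q : ℕ) (t : ℝ) : ‖∑ y ∈ range q, ee (t * y)‖ ≤ q := by
  calc ‖∑ y ∈ range q, ee (t * y)‖ ≤ ∑ y ∈ range q, ‖ee (t * y)‖ := norm_sum_le _ _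
    _ = q := by simp [norm_ee]

lemma kernel_bound (q : ℕ) {t : ℝ} (h0 : 0 < t) (h1 : t < 1) :
    ‖∑ y ∈ range q, ee (t * y)‖ ≤ 1 / (2 * t) + 1 / (2 * (1 - t)) := by
  have hm : 0 < min t (1 - t) := lt_min h0 (by linarith)
  have hlow := sin_low h0 h1
  have hz : ‖ee t - 1‖ = 2 * |Real.sin (Real.pi * t)| := norm_ee_sub_one t
  have hzpos : 4 * min t (1 - t) ≤ ‖ee t - 1‖ := by rw [hz]; linarith
  have hz1 : ee t ≠ 1 := by
    intro h
    rw [h, sub_self, norm_zero] at hzpos
    linarith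
  have hgeom : ∑ y ∈ range q, ee (t * y) = (ee t ^ q - 1) / (ee t - 1) := by
    rw [← geom_sum_eq hz1]
    exact Finset.sum_congr rfl fun y _ => ee_mul_nat t y
  rw [hgeom, norm_div]
  have hnum : ‖ee t ^ q - 1‖ ≤ 2 := by
    calc ‖ee t ^ q - 1‖ ≤ ‖ee t ^ q‖ + ‖(1 : ℂ)‖ := norm_sub_le _ _
      _ = 2 := by rw [norm_pow, norm_ee]; norm_num
  have h4 : 0 < 4 * min t (1 - t) := by linarith
  calc ‖ee t ^ q - 1‖ / ‖ee t - 1‖ ≤ 2 / (4 * min t (1 - t)) := by
        apply div_le_div₀ (by norm_num) hnum h4 hzpos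
    _ ≤ 1 / (2 * t) + 1 / (2 * (1 - t)) := by
        have h1t : 0 < 1 - t := by linarith
        have hA : 0 < 1 / (2 * t) := by positivity
        have hB : 0 < 1 / (2 * (1 - t)) := by positivity
        rcases min_choice t (1 - t) with hc | hc
        · rw [hc]
          have : 2 / (4 * t) = 1 / (2 * t) := by
            field_simp
            norm_num
          rw [this]
          linarith
        · rw [hc]
          have : 2 / (4 * (1 - t)) = 1 / (2 * (1 - t)) := by
            field_simp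
            norm_num
          rw [this]
          linarith

/-- bound for one normalised kernel value -/
lemma kernel_m (q m : ℕ) (r : ℝ) (hr0 : 0 ≤ r) (hr1 : r < 1) (hm : m < q) :
    ‖(q : ℂ)⁻¹ * ∑ y ∈ range q, ee (((m + r) / q) * y)‖ ≤
      1 / ((m : ℝ) + 1) + 1 / ((q : ℝ) - m) := by
  have hq : 0 < (q : ℝ) := by
    have : 0 < q := by omega
    exact_mod_cast this
  have hmq : (m : ℝ) + 1 ≤ q := by exact_mod_cast hm
  have hA : 0 < 1 / ((m : ℝ) + 1) := by positivity
  have hB' : 0 < (q : ℝ) - m := by linarith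
  have hB : 0 < 1 / ((q : ℝ) - m) := by positivity
  have hnorm : ‖(q : ℂ)⁻¹ * ∑ y ∈ range q, ee (((m + r) / q) * y)‖ =
      (q : ℝ)⁻¹ * ‖∑ y ∈ range q, ee (((m + r) / q) * y)‖ := by
    rw [norm_mul, norm_inv]
    simp
  rw [hnorm]
  have htriv : (q : ℝ)⁻¹ * ‖∑ y ∈ range q, ee (((m + r) / q) * y)‖ ≤ 1 := by
    have := kernel_triv q ((m + r) / q)
    calc (q : ℝ)⁻¹ * ‖∑ y ∈ range q, ee (((m + r) / q) * y)‖ ≤ (q : ℝ)⁻¹ * q := by
          gcongr
      _ = 1 := inv_mul_cancel₀ hq.ne'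
  rcases Nat.eq_zero_or_pos m with h0 | h0
  · subst h0
    have : (1 : ℝ) / (((0 : ℕ) : ℝ) + 1) = 1 := by norm_num
    rw [this]
    linarith
  · by_cases hm2 : m + 1 = q
    · have h1 : (q : ℝ) - m = 1 := by
        have : (m : ℝ) + 1 = q := by exact_mod_cast hm2
        linarith
      rw [h1]
      norm_num
      have hA2 : 0 < ((m : ℝ) + 1)⁻¹ := by positivity
      linarith
    · have hm3 : m + 2 ≤ q := by omega
      have hm3' : (m : ℝ) + 2 ≤ q := by exact_mod_cast hm3
      have hm1 : (1 : ℝ) ≤ m := by exact_mod_cast h0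
      have ht0 : 0 < (m + r) / q := by
        have : 0 < (m : ℝ) + r := by linarith
        positivity
      have ht1 : (m + r) / q < 1 := by
        rw [div_lt_one hq]
        linarith
      have hk := kernel_bound q ht0 ht1
      calc (q : ℝ)⁻¹ * ‖∑ y ∈ range q, ee (((m + r) / q) * y)‖
          ≤ (q : ℝ)⁻¹ * (1 / (2 * ((m + r) / q)) + 1 / (2 * (1 - (m + r) / q))) := by
            gcongr
        _ = 1 / (2 * (m + r)) + 1 / (2 * (q - (m + r))) := by
            have h1 : (m : ℝ) + r ≠ 0 := by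
              have : 0 < (m : ℝ) + r := by linarith
              exact this.ne'
            have h2 : (q : ℝ) - (m + r) ≠ 0 := by
              have : 0 < (q : ℝ) - (m + r) := by linarith
              exact this.ne'
            have h3 : 1 - ((m : ℝ) + r) / q = (q - (m + r)) / q := by
              field_simp
            rw [h3]
            field_simp
        _ ≤ 1 / ((m : ℝ) + 1) + 1 / ((q : ℝ) - m) := by
            have e1 : 1 / (2 * ((m : ℝ) + r)) ≤ 1 / ((m : ℝ) + 1) := by
              apply one_div_le_one_div_of_le (by linarith)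
              linarith
            have e2 : 1 / (2 * ((q : ℝ) - (m + r))) ≤ 1 / ((q : ℝ) - m) := by
              apply one_div_le_one_div_of_le (by linarith)
              linarith
            linarith

/-- sum of the kernel bounds -/
lemma kernel_sum (q : ℕ) :
    ∑ m ∈ range q, (1 / ((m : ℝ) + 1) + 1 / ((q : ℝ) - m)) ≤ 2 * (1 + Real.log q) := by
  have hH : ∑ m ∈ range q, 1 / ((m : ℝ) + 1) ≤ 1 + Real.log q := by
    have h := harmonic_le_one_add_log q
    have he : ((harmonic q : ℚ) : ℝ) = ∑ m ∈ range q, 1 / ((m : ℝ) + 1) := by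
      unfold harmonic
      push_cast
      exact Finset.sum_congr rfl fun m _ => by rw [one_div]
    rw [he] at h
    exact h
  have hR : ∑ m ∈ range q, 1 / ((q : ℝ) - m) = ∑ m ∈ range q, 1 / ((m : ℝ) + 1) := by
    rw [← Finset.sum_range_reflect (fun m : ℕ => 1 / ((m : ℝ) + 1)) q]
    apply Finset.sum_congr rfl
    intro m hm
    have hm' : m + 1 ≤ q := Finset.mem_range.mp hm
    have : ((q - 1 - m : ℕ) : ℝ) = (q : ℝ) - 1 - m := by
      have h2 : q - 1 - m = q - (m + 1) := by omega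
      rw [h2, Nat.cast_sub hm']
      push_cast
      ring
    rw [this]
    congr 1
    ring
  rw [Finset.sum_add_distrib, hR]
  linarith

/-- orthogonality -/
lemma orth_sum (q : ℕ) (hq : 1 ≤ q) (j : ℤ) (hj : |j| < q) :
    (q : ℂ)⁻¹ * ∑ m ∈ range q, ee (((j : ℝ) / q) * m) = if j = 0 then 1 else 0 := by
  have hq0 : (q : ℝ) ≠ 0 := by
    have : 0 < q := by omega
    positivity
  have hqc : (q : ℂ) ≠ 0 := by exact_mod_cast (by omega : q ≠ 0)
  split_ifs with h
  · subst h
    simp only [Int.cast_zero, zero_div, zero_mul, ee_zero, sum_const, card_range, nsmul_eq_mul,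
      mul_one]
    exact inv_mul_cancel₀ hqc
  · have hz1 : ee ((j : ℝ) / q) ≠ 1 := by
      intro h1
      have h2 := norm_ee_sub_one ((j : ℝ) / q)
      rw [h1] at h2
      simp only [sub_self, norm_zero] at h2
      have h3 : Real.sin (Real.pi * ((j : ℝ) / q)) = 0 := by
        have : |Real.sin (Real.pi * ((j : ℝ) / q))| = 0 := by linarith
        exact abs_eq_zero.mp this
      rw [Real.sin_eq_zero_iff] at h3
      obtain ⟨n, hn⟩ := h3
      have h4 : (n : ℝ) = (j : ℝ) / q := by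
        have hpi := Real.pi_pos.ne'
        have : (n : ℝ) * Real.pi = ((j : ℝ) / q) * Real.pi := by rw [hn]; ring
        exact mul_right_cancel₀ hpi this
      have h5 : (n : ℝ) * q = j := by
        rw [h4]
        field_simp
      have h6 : n * (q : ℤ) = j := by exact_mod_cast h5
      have hn0 : n ≠ 0 := by
        intro hn0
        rw [hn0, zero_mul] at h6
        exact h h6.symm
      have h7 : (q : ℤ) ≤ |j| := by
        rw [← h6, abs_mul]
        have h8 : 1 ≤ |n| := Int.one_le_abs hn0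
        have h9 : |(q : ℤ)| = q := abs_of_nonneg (by positivity)
        rw [h9]
        nlinarith
      omega
    have hgeom : ∑ m ∈ range q, ee (((j : ℝ) / q) * m) =
        (ee ((j : ℝ) / q) ^ q - 1) / (ee ((j : ℝ) / q) - 1) := by
      rw [← geom_sum_eq hz1]
      exact Finset.sum_congr rfl fun y _ => ee_mul_nat _ y
    have hp : ee ((j : ℝ) / q) ^ q = 1 := by
      rw [← ee_mul_nat]
      have : (j : ℝ) / q * q = (j : ℝ) := by field_simp
      rw [this]
      exact ee_int j
    rw [hgeom, hp]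
    simp

/-- finite Fourier inversion -/
lemma inversion (k : ℕ) (a : ℤ) (q : ℕ) (c : ℤ) (hq : 1 ≤ q) (y : ℕ) (hy : y < q) :
    ee (a * (y : ℝ) ^ k / q) =
      ∑ m ∈ range q, GG k a q (c - m) * ee (-((c - m : ℤ) : ℝ) / q * y) := by
  have hq0 : (q : ℝ) ≠ 0 := by
    have : 0 < q := by omega
    positivity
  have hstep : ∀ m ∈ range q, GG k a q (c - m) * ee (-((c - m : ℤ) : ℝ) / q * y) =
      ∑ z ∈ range q, (ee (a * (z : ℝ) ^ k / q) * ee ((c : ℝ) * (z - y) / q)) *
        ((q : ℂ)⁻¹ * ee ((((y : ℤ) - (z : ℤ) : ℤ) : ℝ) / q * m)) := by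
    intro m _
    unfold GG
    rw [mul_assoc, Finset.sum_mul, Finset.mul_sum]
    apply Finset.sum_congr rfl
    intro z _
    have h1 : ee ((a * (z : ℝ) ^ k + ((c - m : ℤ) : ℝ) * z) / q) *
        ee (-((c - m : ℤ) : ℝ) / q * y) =
        ee (a * (z : ℝ) ^ k / q) * ee ((c : ℝ) * (z - y) / q) *
          ee ((((y : ℤ) - (z : ℤ) : ℤ) : ℝ) / q * m) := by
      rw [← ee_add, ← ee_add, ← ee_add]
      congr 1
      push_cast
      field_simp
      ring
    rw [h1]
    ring
  rw [Finset.sum_congr rfl hstep, Finset.sum_comm]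
  have hin : ∀ z ∈ range q, ∑ m ∈ range q, (ee (a * (z : ℝ) ^ k / q) * ee ((c : ℝ) * (z - y) / q)) *
        ((q : ℂ)⁻¹ * ee ((((y : ℤ) - (z : ℤ) : ℤ) : ℝ) / q * m)) =
      if z = y then ee (a * (y : ℝ) ^ k / q) else 0 := by
    intro z hz
    have hz' : z < q := Finset.mem_range.mp hz
    rw [← Finset.mul_sum, ← Finset.mul_sum]
    rw [orth_sum q hq ((y : ℤ) - (z : ℤ)) (by rw [abs_lt]; constructor <;> omega)]
    by_cases hzy : z = y
    · subst hzy
      simp [ee_zero]
    · have : ((y : ℤ) - (z : ℤ)) ≠ 0 := by omega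
      rw [if_neg this, if_neg hzy, mul_zero]
  rw [Finset.sum_congr rfl hin, Finset.sum_ite_eq' (range q) y, if_pos (Finset.mem_range.mpr hy)]

/-- the expansion of `pq` -/
lemma expand (k : ℕ) (a : ℤ) (q : ℕ) (ξ : ℝ) (hq : 1 ≤ q) :
    pq k a q ξ = ∑ m ∈ range q, GG k a q (⌊q * ξ⌋ - m) *
      ((q : ℂ)⁻¹ * ∑ y ∈ range q, ee (((m + Int.fract (q * ξ)) / q) * y)) := by
  have hq0 : (q : ℝ) ≠ 0 := by
    have : 0 < q := by omega
    positivity
  unfold pq
  have h1 : ∀ y ∈ range q, ee (a * (y : ℝ) ^ k / q + ξ * y) =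
      ∑ m ∈ range q, GG k a q (⌊q * ξ⌋ - m) * ee (((m + Int.fract (q * ξ)) / q) * y) := by
    intro y hy
    rw [ee_add, inversion k a q ⌊q * ξ⌋ hq y (Finset.mem_range.mp hy), Finset.sum_mul]
    apply Finset.sum_congr rfl
    intro m _
    rw [mul_assoc, ← ee_add]
    congr 2
    have hf : Int.fract (q * ξ) = q * ξ - ⌊q * ξ⌋ := rfl
    rw [hf]
    push_cast
    field_simp
    ring
  rw [Finset.sum_congr rfl h1, Finset.sum_comm, Finset.mul_sum]
  apply Finset.sum_congr rfl
  intro m _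
  rw [← Finset.mul_sum]
  ring

theorem thm : G_GB → G_PQ := by
  intro hGB k ε hk hε
  obtain ⟨C, hC⟩ := hGB k (ε / 2) hk (by linarith)
  refine ⟨|C| * (2 * (1 + 2 / ε)), ?_⟩
  intro q a ξ hq hcop
  have hq1 : (1 : ℝ) ≤ q := by exact_mod_cast hq
  have hq0 : (0 : ℝ) < q := by linarith
  set X : ℝ := (q : ℝ) ^ (-(1 / (k : ℝ)) + ε / 2) with hX
  have hXpos : 0 < X := Real.rpow_pos_of_pos hq0 _
  rw [expand k a q ξ hq]
  calc ‖∑ m ∈ range q, GG k a q (⌊q * ξ⌋ - m) *
      ((q : ℂ)⁻¹ * ∑ y ∈ range q, ee (((m + Int.fract (q * ξ)) / q) * y))‖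
      ≤ ∑ m ∈ range q, ‖GG k a q (⌊q * ξ⌋ - m) *
      ((q : ℂ)⁻¹ * ∑ y ∈ range q, ee (((m + Int.fract (q * ξ)) / q) * y))‖ := norm_sum_le _ _
    _ ≤ ∑ m ∈ range q, (|C| * X) * (1 / ((m : ℝ) + 1) + 1 / ((q : ℝ) - m)) := by
        apply Finset.sum_le_sum
        intro m hm
        rw [norm_mul]
        have h1 : ‖GG k a q (⌊q * ξ⌋ - m)‖ ≤ |C| * X := by
          refine (hC q a _ hq hcop).trans ?_
          exact mul_le_mul_of_nonneg_right (le_abs_self C) hXpos.le
        have h2 := kernel_m q m (Int.fract (q * ξ)) (Int.fract_nonneg _) (Int.fract_lt_one _)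
          (Finset.mem_range.mp hm)
        exact mul_le_mul h1 h2 (norm_nonneg _) (by positivity)
    _ = (|C| * X) * ∑ m ∈ range q, (1 / ((m : ℝ) + 1) + 1 / ((q : ℝ) - m)) := by
        rw [Finset.mul_sum]
    _ ≤ (|C| * X) * (2 * (1 + Real.log q)) := by
        exact mul_le_mul_of_nonneg_left (kernel_sum q) (by positivity)
    _ ≤ (|C| * X) * (2 * ((1 + 2 / ε) * (q : ℝ) ^ (ε / 2))) := by
        apply mul_le_mul_of_nonneg_left _ (by positivity)
        apply mul_le_mul_of_nonneg_left _ (by norm_num)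
        have hl : Real.log q ≤ (q : ℝ) ^ (ε / 2) / (ε / 2) :=
          Real.log_le_rpow_div hq0.le (by linarith)
        have h1 : 1 ≤ (q : ℝ) ^ (ε / 2) := Real.one_le_rpow hq1 (by linarith)
        have h2 : (q : ℝ) ^ (ε / 2) / (ε / 2) = 2 / ε * (q : ℝ) ^ (ε / 2) := by
          field_simp
        rw [h2] at hl
        nlinarith
    _ = |C| * (2 * (1 + 2 / ε)) * (q : ℝ) ^ (-(1 / (k : ℝ)) + ε) := by
        have hsplit : (q : ℝ) ^ (-(1 / (k : ℝ)) + ε) = X * (q : ℝ) ^ (ε / 2) := by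
          rw [hX, ← Real.rpow_add hq0]
          congr 1
          ring
        rw [hsplit]
        ring

end Pool.Agent.Helper42.KS.PkPQ
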