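import Pool.Agent.Helper27.KS.Ad
import Pool.Agent.Helper96.GP.PEEL
import Pool.Agent.Helper12.GP.MST
import Pool.Agent.Helper94.GP.GMB
import Pool.Agent.Helper49.GP.GMC
import Pool.Agent.Helper42.GP.GAM
import Pool.Agent.Helper83.GP.Cone
import Pool.Agent.Helper33.GP.SMO
import Pool.Agent.Helper94.KS.GIN
import Pool.Agent.Helper12.KS.NOI
import Pool.Agent.Helper83.KS.LCN
import Pool.Agent.Helper14.KS.CMP
import Pool.Agent.Helper33.KS.TLR
import Pool.Agent.Helper56.KS.FSM
import Pool.Agent.Helper90.KS.NRE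
import Pool.Agent.Helper27.KS.MVZ
import Pool.Agent.Helper70.KS.STB
import Pool.Agent.Helper72.KS.LTA
import Pool.Agent.Helper26.KS.LSB
import Pool.Agent.Helper15.KS.CNT
import Pool.Agent.Helper19.KS.ENE

/-!
# Stability of large deviations: assembly
-/

namespace Pool.Agent.Helper27.KS

theorem all_smo : Pool.Agent.Helper89.GP.SmoStmt := by
  have h1 := Pool.Agent.Helper96.GP.peel
  have h2 := Pool.Agent.Helper12.GP.mst h1
  have h3 := Pool.Agent.Helper94.GP.gmb h1 h2
  have h4 := Pool.Agent.Helper49.GP.gmc h1 h3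
  have h5 := Pool.Agent.Helper42.GP.gam h4
  have h6 := Pool.Agent.Helper83.GP.con h5
  exact Pool.Agent.Helper33.GP.smo h6

theorem all_stb : StbStmt := by
  have hG := Pool.Agent.Helper94.KS.gin
  have hN := Pool.Agent.Helper12.KS.noi hG
  have hL := Pool.Agent.Helper83.KS.lcn hG all_smo
  have hC := Pool.Agent.Helper14.KS.cmp
  have hT := Pool.Agent.Helper33.KS.tlr hG hN hL Pool.Agent.Helper72.KS.lta
  have hF := Pool.Agent.Helper56.KS.fsm Pool.Agent.Helper15.KS.cnt
  have hE := Pool.Agent.Helper19.KS.ene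
  have hM : MvzStmt := mvz hE hT hF Pool.Agent.Helper90.KS.nre
  exact Pool.Agent.Helper70.KS.stb hM hG hN hL hC Pool.Agent.Helper26.KS.lsb

/-- The form used in the final assembly. -/
theorem stb75 : Pool.Agent.Helper75.KS.StbStmt := stb_ad all_stb

end Pool.Agent.Helper27.KS
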